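import Pool.Agent.W181.RT.Props

/-! Reiner–Tudose project: `S_BOUND` and `S_FIN`. -/

set_option autoImplicit false

namespace Pool.Agent.W439.RT

open Pool.Agent.W181.RT Polynomial

/-- the generators in level `i` -/
def VV (ℓ k i : ℕ) : Set (RR ℓ k) := {x : RR ℓ k | ∃ lam mu : Multiset ℕ,
        Multiset.card lam = i ∧ Multiset.card mu = i ∧
        (∀ t ∈ lam, t ≤ k - i) ∧ (∀ t ∈ mu, t ≤ ℓ - i) ∧ x = Th (qq ℓ k) i (XY ℓ k i lam mu)}

/-- index set -/
def JJ (ℓ k i : ℕ) : Finset (Sym ℕ i × Sym ℕ i) :=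
  (Finset.range (k - i + 1)).sym i ×ˢ (Finset.range (ℓ - i + 1)).sym i

open Classical in
/-- the generators of degree `D` in level `i` -/
noncomputable def FF (ℓ k i D : ℕ) : Finset (RR ℓ k) :=
  ((JJ ℓ k i).filter
    (fun p => i * i + (p.1 : Multiset ℕ).sum + (p.2 : Multiset ℕ).sum = D)).image
    (fun p => Th (qq ℓ k) i (XY ℓ k i p.1 p.2))

theorem mem_VV (ℓ k i : ℕ) (x : RR ℓ k) (hx : x ∈ VV ℓ k i) :
    ∃ p ∈ JJ ℓ k i, x = Th (qq ℓ k) i (XY ℓ k i p.1 p.2) := by
  obtain ⟨lam, mu, h1, h2, h3, h4, rfl⟩ := hx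
  refine ⟨(⟨lam, h1⟩, ⟨mu, h2⟩), ?_, rfl⟩
  rw [JJ, Finset.mem_product]
  constructor
  · rw [Finset.mem_sym_iff]
    intro a ha
    have := h3 a ha
    rw [Finset.mem_range]; omega
  · rw [Finset.mem_sym_iff]
    intro a ha
    have := h4 a ha
    rw [Finset.mem_range]; omega

theorem coeff_lvl (ℓ k i D : ℕ) :
    ((Polynomial.X : Polynomial ℕ) ^ (i * i) * Gp i (k - i) * Gp i (ℓ - i)).coeff D
      = ((JJ ℓ k i).filter
    (fun p => i * i + (p.1 : Multiset ℕ).sum + (p.2 : Multiset ℕ).sum = D)).card := by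
  have h : (Polynomial.X : Polynomial ℕ) ^ (i * i) * Gp i (k - i) * Gp i (ℓ - i)
      = ∑ p ∈ JJ ℓ k i, (Polynomial.X : Polynomial ℕ) ^
          (i * i + (p.1 : Multiset ℕ).sum + (p.2 : Multiset ℕ).sum) := by
    rw [Gp, Gp, JJ, Finset.sum_product, mul_assoc, Finset.sum_mul_sum, Finset.mul_sum]
    apply Finset.sum_congr rfl
    intro a _
    rw [Finset.mul_sum]
    apply Finset.sum_congr rfl
    intro b _
    rw [pow_add, pow_add, mul_assoc]
  rw [h, Polynomial.finsetSum_coeff, Finset.card_filter]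
  apply Finset.sum_congr rfl
  intro p _
  rw [Polynomial.coeff_X_pow]
  simp only [eq_comm]

open Classical in
/-- all generators of degree `D` in levels `< m` -/
noncomputable def GG (ℓ k m D : ℕ) : Finset (RR ℓ k) :=
  (Finset.range m).biUnion (fun i => FF ℓ k i D)

theorem card_GG (ℓ k m D : ℕ) : (GG ℓ k m D).card ≤ (Np ℓ k m).coeff D := by
  classical
  rw [Np, Polynomial.finsetSum_coeff, GG]
  refine le_trans Finset.card_biUnion_le (Finset.sum_le_sum ?_)
  intro i _
  rw [coeff_lvl, FF]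
  exact Finset.card_image_le

theorem mem_GG_of_VV (ℓ k m i : ℕ) (hi : i < m) (x : RR ℓ k) (hx : x ∈ VV ℓ k i) :
    ∃ D, x ∈ GG ℓ k m D := by
  classical
  obtain ⟨p, hp, rfl⟩ := mem_VV ℓ k i x hx
  refine ⟨i * i + (p.1 : Multiset ℕ).sum + (p.2 : Multiset ℕ).sum, ?_⟩
  rw [GG, Finset.mem_biUnion]
  refine ⟨i, Finset.mem_range.mpr hi, ?_⟩
  rw [FF, Finset.mem_image]
  exact ⟨p, Finset.mem_filter.mpr ⟨hp, rfl⟩, rfl⟩

theorem GG_sub (hHOM : S_HOM) (ℓ k m D : ℕ) (x : RR ℓ k) (hx : x ∈ GG ℓ k m D) :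
    x ∈ RD ℓ k D := by
  classical
  rw [GG, Finset.mem_biUnion] at hx
  obtain ⟨i, _, hx⟩ := hx
  rw [FF, Finset.mem_image] at hx
  obtain ⟨p, hp, rfl⟩ := hx
  have h := hHOM ℓ k i p.1 p.2
  rw [(Finset.mem_filter.mp hp).2] at h
  exact h

theorem PI_zero (ℓ k : ℕ) : PI (qq ℓ k) 0 = ⊤ := by
  rw [Ideal.eq_top_iff_one]
  apply Ideal.subset_span
  refine ⟨fun i => i.elim0, ?_⟩
  rw [hk, Matrix.det_isEmpty]

/-- iterating the step -/
theorem top_eq (hSTEP : S_STEP) (ℓ k m : ℕ) (hm : m ≤ min k ℓ + 1) :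
    (⊤ : Submodule ℚ (RR ℓ k)) ≤
      (⨆ D : ℕ, Submodule.span ℚ (GG ℓ k m D : Set (RR ℓ k))) ⊔
        ((PI (qq ℓ k) m).restrictScalars ℚ) := by
  classical
  induction m with
  | zero =>
    rw [PI_zero]
    refine le_trans ?_ le_sup_right
    intro x _
    exact Submodule.mem_top
  | succ m ih =>
    refine le_trans (ih (by omega)) ?_
    refine sup_le ?_ ?_
    · refine le_trans ?_ le_sup_left
      apply iSup_mono
      intro D
      apply Submodule.span_mono
      intro x hx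
      rw [Finset.mem_coe, GG, Finset.mem_biUnion] at hx ⊢
      obtain ⟨i, hi, hx⟩ := hx
      exact ⟨i, Finset.mem_range.mpr (by have := Finset.mem_range.mp hi; omega), hx⟩
    · refine le_trans (hSTEP ℓ k m (by omega) (by omega)) ?_
      refine sup_le ?_ le_sup_right
      refine le_trans ?_ le_sup_left
      rw [Submodule.span_le]
      intro x hx
      obtain ⟨D, hD⟩ := mem_GG_of_VV ℓ k (m + 1) m (Nat.lt_succ_self m) x hx
      exact (le_iSup (fun D : ℕ => Submodule.span ℚ (GG ℓ k (m + 1) D : Set (RR ℓ k))) D)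
        (Submodule.subset_span hD)

/-- eigenvalue separation modulo a stable subspace -/
theorem sep (ℓ k : ℕ) (W : Submodule ℚ (RR ℓ k)) (hW : ∀ x ∈ W, sig ℓ k x ∈ W)
    (F : Finset ℕ) : ∀ y : ℕ → RR ℓ k, (∀ E, y E ∈ RD ℓ k E) → ∑ E ∈ F, y E ∈ W →
      ∀ E ∈ F, y E ∈ W := by
  classical
  induction F using Finset.induction_on with
  | empty => intro y _ _ E hE; simp at hE
  | insert a s ha ih =>
    intro y hy hsum
    have h1 : ∀ E ∈ s, y E ∈ W := by
      intro E hE
      have h2 : sig ℓ k (∑ E ∈ insert a s, y E) - (2 : ℚ) ^ a • (∑ E ∈ insert a s, y E) ∈ W :=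
        W.sub_mem (hW _ hsum) (W.smul_mem _ hsum)
      have h3 : sig ℓ k (∑ E ∈ insert a s, y E) - (2 : ℚ) ^ a • (∑ E ∈ insert a s, y E)
          = ∑ E ∈ s, ((2 : ℚ) ^ E - (2 : ℚ) ^ a) • y E := by
        rw [map_sum, Finset.smul_sum, ← Finset.sum_sub_distrib, Finset.sum_insert ha]
        have h4 : ∀ E, sig ℓ k (y E) - (2 : ℚ) ^ a • y E = ((2 : ℚ) ^ E - (2 : ℚ) ^ a) • y E := by
          intro E
          rw [(mem_RD ℓ k E (y E)).mp (hy E), sub_smul]
        rw [h4 a, sub_self, zero_smul, zero_add]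
        exact Finset.sum_congr rfl (fun E _ => h4 E)
      rw [h3] at h2
      have h5 := ih (fun E => ((2 : ℚ) ^ E - (2 : ℚ) ^ a) • y E)
        (fun E => (RD ℓ k E).smul_mem _ (hy E)) h2 E hE
      have hne : ((2 : ℚ) ^ E - (2 : ℚ) ^ a) ≠ 0 := by
        intro h
        have h6 : (2 : ℚ) ^ E = (2 : ℚ) ^ a := sub_eq_zero.mp h
        have h7 : E = a := by
          have h8 : (2 : ℕ) ^ E = (2 : ℕ) ^ a := by exact_mod_cast h6
          exact Nat.pow_right_injective (le_refl 2) h8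
        exact ha (h7 ▸ hE)
      have h9 := W.smul_mem (((2 : ℚ) ^ E - (2 : ℚ) ^ a)⁻¹) h5
      simp only [smul_smul, inv_mul_cancel₀ hne, one_smul] at h9
      exact h9
    intro E hE
    rcases Finset.mem_insert.mp hE with h | h
    · subst h
      rw [Finset.sum_insert ha] at hsum
      have h2 : ∑ E ∈ s, y E ∈ W := W.sum_mem h1
      have h3 := W.sub_mem hsum h2
      rwa [add_sub_cancel_right] at h3
    · exact h1 E h

theorem t_BOUND (hSTEP : S_STEP) (hHOM : S_HOM) (hSTAB : S_STAB) : S_BOUND := by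
  classical
  intro ℓ k m hm D
  refine ⟨Submodule.span ℚ (GG ℓ k m D : Set (RR ℓ k)), ?_, ?_, ?_⟩
  · exact Module.Finite.span_finset ℚ _
  · exact le_trans (finrank_span_finset_le_card _) (card_GG ℓ k m D)
  · intro x hx
    have h1 := top_eq hSTEP ℓ k m hm (Submodule.mem_top (x := x))
    rw [Submodule.mem_sup] at h1
    obtain ⟨u, hu, w, hw, huw⟩ := h1
    rw [Submodule.mem_iSup_iff_exists_finsupp] at hu
    obtain ⟨f, hf, hfu⟩ := hu
    -- `u = ∑ f E`
    have hfE : ∀ E, f E ∈ RD ℓ k E := by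
      intro E
      have h2 := hf E
      have h3 : Submodule.span ℚ (GG ℓ k m E : Set (RR ℓ k)) ≤ RD ℓ k E := by
        rw [Submodule.span_le]
        intro z hz
        exact GG_sub hHOM ℓ k m E z hz
      exact h3 h2
    have hsum : f.sum (fun _ z => z) = ∑ E ∈ insert D f.support, f E := by
      rw [Finsupp.sum]
      apply Finset.sum_subset (Finset.subset_insert _ _)
      intro E _ hE
      exact Finsupp.notMem_support_iff.mp hE
    let y : ℕ → RR ℓ k := fun E => if E = D then x - f D else - f E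
    have hy : ∀ E, y E ∈ RD ℓ k E := by
      intro E
      by_cases h : E = D
      · subst h
        simp only [y, if_true]
        exact (RD ℓ k E).sub_mem hx (hfE E)
      · simp only [y, if_neg h]
        exact (RD ℓ k E).neg_mem (hfE E)
    have hys : ∑ E ∈ insert D f.support, y E = x - ∑ E ∈ insert D f.support, f E := by
      have h3 : ∀ E, y E = (if E = D then x else 0) - f E := by
        intro E
        by_cases h : E = D
        · subst h; simp [y]
        · simp [y, h]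
      rw [Finset.sum_congr rfl (fun E _ => h3 E), Finset.sum_sub_distrib,
        Finset.sum_ite_eq' , if_pos (Finset.mem_insert_self _ _)]
    have hW := sep ℓ k ((PI (qq ℓ k) m).restrictScalars ℚ) (fun z hz => hSTAB ℓ k m z hz)
      (insert D f.support) y hy (by
        rw [hys, ← hsum, hfu, ← huw, add_sub_cancel_left]
        exact hw) D (Finset.mem_insert_self _ _)
    have hyD : y D = x - f D := by simp [y]
    rw [hyD] at hW
    rw [Submodule.mem_sup]
    exact ⟨f D, hf D, x - f D, hW, by abel⟩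

theorem t_FIN (hSTEP : S_STEP) (hVAN : S_VAN) : S_FIN := by
  classical
  intro ℓ k
  rw [Module.finite_def]
  have h1 := top_eq hSTEP ℓ k (min k ℓ + 1) (le_refl _)
  rw [hVAN ℓ k] at h1
  have h2 : (⊤ : Submodule ℚ (RR ℓ k)) =
      Submodule.span ℚ ((((Finset.range (min k ℓ + 1)).biUnion (fun i => (JJ ℓ k i).image
        (fun p => Th (qq ℓ k) i (XY ℓ k i p.1 p.2))) : Finset (RR ℓ k))) : Set (RR ℓ k)) := by
    apply le_antisymm
    · refine le_trans h1 (sup_le ?_ ?_)
      · apply iSup_le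
        intro D
        apply Submodule.span_mono
        intro x hx
        rw [Finset.mem_coe, GG, Finset.mem_biUnion] at hx
        obtain ⟨i, hi, hx⟩ := hx
        rw [FF, Finset.mem_image] at hx
        obtain ⟨p, hp, rfl⟩ := hx
        rw [Finset.mem_coe, Finset.mem_biUnion]
        exact ⟨i, hi, Finset.mem_image.mpr ⟨p, (Finset.mem_filter.mp hp).1, rfl⟩⟩
      · intro x hx
        rw [Submodule.restrictScalars_mem, Ideal.mem_bot] at hx
        rw [hx]
        exact Submodule.zero_mem _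
    · exact le_top
  rw [h2]
  exact Submodule.fg_span (Finset.finite_toSet _)

end Pool.Agent.W439.RT
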